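import Mathlib
import Pool.Agent.H50.RDEHorseshoe

/-!
# Positive solutions of `x_{n+1} = x_{n-2} / (B x_n + x_{n-2})` that are not asymptotically periodic

The whole proof is in `Pool.Agent.H50.RDEHorseshoe`.
-/

set_option autoImplicit false

open Filter Topology

namespace Pool.Agent.Results.MP_9297ae_an.Horseshoe

/-- `x` is a positive solution of `x_{n+1} = x_{n-2} / (B x_n + x_{n-2})`; the index is shifted
by two, so that `x 0, x 1, x 2` are the three initial values `x_{-2}, x_{-1}, x_0`. -/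
def IsPositiveSolution (B : ℝ) (x : ℕ → ℝ) : Prop :=
  0 < x 0 ∧ 0 < x 1 ∧ 0 < x 2 ∧ ∀ n, x (n + 3) = x n / (B * x (n + 2) + x n)

/-- For every `B ≥ 2 ^ 100000` there is a positive solution of
`x_{n+1} = x_{n-2} / (B x_n + x_{n-2})` that converges to no periodic sequence whatsoever; in
particular it converges neither to the equilibrium (a constant sequence) nor to a periodic
solution. -/
theorem result : ∀ B : ℝ, (2:ℝ) ^ (100000:ℕ) ≤ B →
    ∃ x : ℕ → ℝ, IsPositiveSolution B x ∧
      ∀ (p : ℕ → ℝ) (k : ℕ), 1 ≤ k → (∀ n, p (n + k) = p n) →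
        ¬ Tendsto (fun n => x n - p n) atTop (𝓝 0) := by
  intro B hB
  obtain ⟨x, hx, hp⟩ := Pool.Agent.H50.RDE.exists_solution B hB
  exact ⟨x, hx, hp⟩

end Pool.Agent.Results.MP_9297ae_an.Horseshoe
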